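import Mathlib

/-!
For every `b ≥ 1` there is a finite connected simple graph with exactly `b` irreducible FAT
colorings (counted up to automorphism).

For `b ≥ 2` the graph is the blow-up of the path `P₅` with classes of sizes `q, 2, q, 2, q`, where
`q = 2 b - 3`.
-/

namespace Pool.Agent.Results.MP_48b99b_co.EveryCount

open Finset

section Defs

variable {V : Type}

open Classical in
/-- The number of neighbours of `v` in the color class of `w` (a coloring is given by the partition
into its nonempty color classes, that is by an equivalence relation `r`). -/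
noncomputable def nb [Fintype V] (G : SimpleGraph V) (r : Setoid V) (v w : V) : ℕ :=
  (univ.filter fun u => G.Adj v u ∧ r u w).card

open Classical in
/-- The degree of `v`. -/
noncomputable def dg [Fintype V] (G : SimpleGraph V) (v : V) : ℕ := (univ.filter fun u => G.Adj v u).card

/-- `r` is a FAT coloring: for some `α ∈ [0, 1]`, with `k` the number of classes and
`β = 1 - (k - 1) α`, every vertex `v` has `β deg v` neighbours in its own class and `α deg v`
neighbours in every other class. -/
def IsFAT [Fintype V] (G : SimpleGraph V) (r : Setoid V) : Prop :=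
  ∃ α : ℝ, 0 ≤ α ∧ α ≤ 1 ∧ ∀ v w : V,
    (¬ r v w → (nb G r v w : ℝ) = α * dg G v) ∧
    (r v w → (nb G r v w : ℝ) = (1 - ((Nat.card (Quotient r) : ℝ) - 1) * α) * dg G v)

/-- A FAT coloring is irreducible if no other FAT coloring is finer. -/
def IsIrreducible [Fintype V] (G : SimpleGraph V) (r : Setoid V) : Prop :=
  IsFAT G r ∧ ∀ r' : Setoid V, IsFAT G r' → r' ≤ r → r' = r

/-- Two partitions are the same up to an automorphism of `G`. -/
def Equivalent (G : SimpleGraph V) (r r' : Setoid V) : Prop :=
  ∃ φ : G ≃g G, ∀ u v, r u v ↔ r' (φ u) (φ v)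

lemma Equivalent.refl (G : SimpleGraph V) (r : Setoid V) : Equivalent G r r :=
  ⟨SimpleGraph.Iso.refl, fun _ _ => Iff.rfl⟩

lemma Equivalent.symm {G : SimpleGraph V} {r r' : Setoid V} (h : Equivalent G r r') :
    Equivalent G r' r := by
  obtain ⟨φ, hφ⟩ := h
  refine ⟨φ.symm, fun u v => ?_⟩
  rw [hφ]
  simp

lemma Equivalent.trans {G : SimpleGraph V} {r r' r'' : Setoid V} (h : Equivalent G r r')
    (h' : Equivalent G r' r'') : Equivalent G r r'' := by
  obtain ⟨φ, hφ⟩ := h
  obtain ⟨ψ, hψ⟩ := h'
  exact ⟨φ.trans ψ, fun u v => (hφ u v).trans (hψ _ _)⟩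

/-- The irreducible FAT colorings up to automorphism, as a setoid. -/
def irrSetoid [Fintype V] (G : SimpleGraph V) : Setoid {r : Setoid V // IsIrreducible G r} where
  r a b := Equivalent G a.1 b.1
  iseqv := ⟨fun a => Equivalent.refl G a.1, fun h => h.symm, fun h h' => h.trans h'⟩

/-- The number of irreducible FAT colorings of `G`: the number of orbits under `Aut G`. -/
noncomputable def numIrreducible [Fintype V] (G : SimpleGraph V) : ℕ := Nat.card (Quotient (irrSetoid G))

end Defs

/-! ### The graph -/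

/-- The vertices `A, C, E` (three classes of size `q`) and `B, D` (two classes of size `2`). -/
abbrev Vq (q : ℕ) : Type := (Fin 3 × Fin q) ⊕ (Fin 2 × Fin 2)

/-- Adjacency of the classes. -/
def adj (t : Fin 3) (s : Fin 2) : Prop := t = 1 ∨ t.val = 2 * s.val

instance (t : Fin 3) (s : Fin 2) : Decidable (adj t s) := by unfold adj; infer_instance

/-- The blow-up of the path `A B C D E`. -/
def Gq (q : ℕ) : SimpleGraph (Vq q) where
  Adj u v := match u, v with
    | Sum.inl (t, _), Sum.inr (s, _) => adj t s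
    | Sum.inr (s, _), Sum.inl (t, _) => adj t s
    | _, _ => False
  symm := ⟨by
    rintro (⟨t, x⟩ | ⟨s, y⟩) (⟨t', x'⟩ | ⟨s', y'⟩) h <;> exact h⟩
  loopless := ⟨by
    rintro (⟨t, x⟩ | ⟨s, y⟩) h <;> exact h⟩

section Counts

variable {q : ℕ}

lemma adj_inl_inl (p p' : Fin 3 × Fin q) : ¬ (Gq q).Adj (Sum.inl p) (Sum.inl p') := fun h => h

lemma adj_inr_inr (p p' : Fin 2 × Fin 2) : ¬ (Gq q).Adj (Sum.inr p) (Sum.inr p') := fun h => h

lemma adj_inl_inr (t : Fin 3) (x : Fin q) (s y : Fin 2) :
    (Gq q).Adj (Sum.inl (t, x)) (Sum.inr (s, y)) ↔ adj t s := Iff.rfl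

lemma adj_inr_inl (t : Fin 3) (x : Fin q) (s y : Fin 2) :
    (Gq q).Adj (Sum.inr (s, y)) (Sum.inl (t, x)) ↔ adj t s := Iff.rfl

open Classical in
/-- The number of vertices in the class `t` related to `w`. -/
noncomputable def cnt (r : Setoid (Vq q)) (t : Fin 3) (w : Vq q) : ℕ :=
  (univ.filter fun x : Fin q => r (Sum.inl (t, x)) w).card

open Classical in
lemma nb_inl (r : Setoid (Vq q)) (t : Fin 3) (x : Fin q) (w : Vq q) :
    nb (Gq q) r (Sum.inl (t, x)) w =
      ∑ s : Fin 2, if adj t s then ((if r (Sum.inr (s, 0)) w then 1 else 0) +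
        (if r (Sum.inr (s, 1)) w then 1 else 0)) else 0 := by
  unfold nb
  rw [Finset.card_filter, Fintype.sum_sum_type, Fintype.sum_prod_type (f := fun p : Fin 2 × Fin 2 =>
    if (Gq q).Adj (Sum.inl (t, x)) (Sum.inr p) ∧ r (Sum.inr p) w then 1 else 0)]
  simp only [adj_inl_inl, false_and, if_false, Finset.sum_const_zero, zero_add, adj_inl_inr,
    Fin.sum_univ_two]
  by_cases h0 : adj t 0 <;> by_cases h1 : adj t 1 <;> simp only [h0, h1, true_and, false_and,
    if_true, if_false]

open Classical in
lemma nb_inr (r : Setoid (Vq q)) (s y : Fin 2) (w : Vq q) :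
    nb (Gq q) r (Sum.inr (s, y)) w = ∑ t : Fin 3, if adj t s then cnt r t w else 0 := by
  unfold nb cnt
  rw [Finset.card_filter, Fintype.sum_sum_type, Fintype.sum_prod_type (f := fun p : Fin 3 × Fin q =>
    if (Gq q).Adj (Sum.inr (s, y)) (Sum.inl p) ∧ r (Sum.inl p) w then 1 else 0)]
  simp only [adj_inr_inr, false_and, if_false, Finset.sum_const_zero, add_zero, adj_inr_inl]
  refine Finset.sum_congr rfl fun t _ => ?_
  rw [Finset.card_filter]
  by_cases h : adj t s <;> simp [h]

open Classical in
lemma dg_inl (t : Fin 3) (x : Fin q) :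
    dg (Gq q) (Sum.inl (t, x)) = if t = 1 then 4 else 2 := by
  unfold dg
  rw [Finset.card_filter, Fintype.sum_sum_type, Fintype.sum_prod_type (f := fun p : Fin 2 × Fin 2 =>
    if (Gq q).Adj (Sum.inl (t, x)) (Sum.inr p) then 1 else 0)]
  simp only [adj_inl_inl, if_false, Finset.sum_const_zero, zero_add, adj_inl_inr,
    Fin.sum_univ_two]
  revert t; decide

open Classical in
lemma dg_inr (s y : Fin 2) : dg (Gq q) (Sum.inr (s, y)) = 2 * q := by
  unfold dg
  rw [Finset.card_filter, Fintype.sum_sum_type, Fintype.sum_prod_type (f := fun p : Fin 3 × Fin q =>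
    if (Gq q).Adj (Sum.inr (s, y)) (Sum.inl p) then 1 else 0)]
  simp only [adj_inr_inr, if_false, Finset.sum_const_zero, add_zero, adj_inr_inl,
    Finset.sum_const, Finset.card_univ, Fintype.card_fin, smul_eq_mul, Fin.sum_univ_three]
  fin_cases s <;> simp [adj] <;> ring

end Counts

section Classify

variable {q : ℕ}

open Classical in
/-- `1` if `u` and `w` are in the same class, else `0`. -/
noncomputable def ind (r : Setoid (Vq q)) (u w : Vq q) : ℕ := if r u w then 1 else 0

lemma ind_le (r : Setoid (Vq q)) (u w : Vq q) : ind r u w ≤ 1 := by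
  unfold ind; split_ifs <;> omega

lemma ind_eq_one {r : Setoid (Vq q)} {u w : Vq q} : ind r u w = 1 ↔ r u w := by
  unfold ind; split_ifs <;> simp_all

lemma ind_eq_zero {r : Setoid (Vq q)} {u w : Vq q} : ind r u w = 0 ↔ ¬ r u w := by
  unfold ind; split_ifs <;> simp_all

lemma nb_A (r : Setoid (Vq q)) (x : Fin q) (w : Vq q) :
    nb (Gq q) r (Sum.inl (0, x)) w = ind r (Sum.inr (0, 0)) w + ind r (Sum.inr (0, 1)) w := by
  rw [nb_inl, Fin.sum_univ_two, if_pos (show adj 0 0 by decide), if_neg (show ¬ adj 0 1 by decide)]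
  rfl

lemma nb_E (r : Setoid (Vq q)) (x : Fin q) (w : Vq q) :
    nb (Gq q) r (Sum.inl (2, x)) w = ind r (Sum.inr (1, 0)) w + ind r (Sum.inr (1, 1)) w := by
  rw [nb_inl, Fin.sum_univ_two, if_neg (by decide), if_pos (by decide), zero_add]
  rfl

lemma nb_B (r : Setoid (Vq q)) (y : Fin 2) (w : Vq q) :
    nb (Gq q) r (Sum.inr (0, y)) w = cnt r 0 w + cnt r 1 w := by
  rw [nb_inr, Fin.sum_univ_three, if_pos (by decide), if_pos (by decide), if_neg (by decide)]
  rfl

lemma nb_D (r : Setoid (Vq q)) (y : Fin 2) (w : Vq q) :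
    nb (Gq q) r (Sum.inr (1, y)) w = cnt r 1 w + cnt r 2 w := by
  rw [nb_inr, Fin.sum_univ_three, if_neg (by decide), if_pos (by decide), if_pos (by decide),
    zero_add]

open Classical in
lemma nb_pos_of_adj {V : Type} [Fintype V] {G : SimpleGraph V} {r : Setoid V} {v u w : V}
    (h : G.Adj v u) (h' : r u w) : 0 < nb G r v w := by
  unfold nb
  rw [Finset.card_pos]
  exact ⟨u, by simp [h, h']⟩

open Classical in
lemma related_of_nb_eq_dg {V : Type} [Fintype V] {G : SimpleGraph V} {r : Setoid V} {v u w : V}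
    (h : nb G r v w = dg G v) (h' : G.Adj v u) : r u w := by
  unfold nb dg at h
  have : (univ.filter fun u => G.Adj v u ∧ r u w) = univ.filter fun u => G.Adj v u := by
    apply Finset.eq_of_subset_of_card_le
    · intro x hx
      simp only [Finset.mem_filter, Finset.mem_univ, true_and] at hx ⊢
      exact hx.1
    · rw [h]
  have h1 : u ∈ univ.filter fun u => G.Adj v u := by simp [h']
  rw [← this] at h1
  simp only [Finset.mem_filter, Finset.mem_univ, true_and] at h1
  exact h1.2

/-- The coloring given by the bipartition. -/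
def bip (q : ℕ) : Setoid (Vq q) := Setoid.ker fun v => v.isLeft

lemma bip_iff (u v : Vq q) : bip q u v ↔ u.isLeft = v.isLeft := Iff.rfl

/-- If any two adjacent vertices are related then all vertices are related. -/
lemma all_of_adj (hq : 0 < q) (r : Setoid (Vq q)) (h : ∀ u v, (Gq q).Adj u v → r u v) :
    ∀ u v, r u v := by
  have hR : ∀ t x s y, adj t s → r (Sum.inl (t, x)) (Sum.inr (s, y)) := fun t x s y hts =>
    h _ _ hts
  let x0 : Fin q := ⟨0, hq⟩
  have hB : ∀ s y, r (Sum.inr (s, y)) (Sum.inl (1, x0)) := fun s y =>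
    r.symm (hR 1 x0 s y (by revert s; decide))
  have key : ∀ u, r u (Sum.inl (1, x0)) := by
    rintro (⟨t, x⟩ | ⟨s, y⟩)
    · have : ∃ s : Fin 2, adj t s := by revert t; decide
      obtain ⟨s, hs⟩ := this
      exact r.trans (hR t x s 0 hs) (hB s 0)
    · exact hB s y
  exact fun u v => r.trans (key u) (r.symm (key v))

/-- The FAT colorings of `Gq q`. -/
theorem classify (hq : 0 < q) (r : Setoid (Vq q)) (h : IsFAT (Gq q) r) :
    (∀ u v, r u v) ∨ r = bip q ∨ ∀ v w, 2 * nb (Gq q) r v w = dg (Gq q) v := by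
  by_cases htop : ∀ u v, r u v
  · exact Or.inl htop
  right
  push Not at htop
  obtain ⟨u0, v0, huv⟩ := htop
  -- every vertex has an unrelated vertex
  have hex : ∀ v, ∃ w, ¬ r v w := by
    intro v
    by_contra hcon
    push Not at hcon
    exact huv (r.trans (r.symm (hcon u0)) (hcon v0))
  obtain ⟨α, h0, h1, H⟩ := h
  let x0 : Fin q := ⟨0, hq⟩
  set A0 : Vq q := Sum.inl (0, x0) with hA0
  set B0 : Vq q := Sum.inr (0, 0) with hB0
  set B1 : Vq q := Sum.inr (0, 1) with hB1
  have hdA : dg (Gq q) A0 = 2 := by rw [hA0, dg_inl]; rfl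
  obtain ⟨w0, hw0⟩ := hex A0
  have e0 := (H A0 w0).1 hw0
  rw [hdA] at e0
  have hnb := nb_A r x0 w0
  rw [← hA0, ← hB0, ← hB1] at hnb
  have hle1 := ind_le r B0 w0
  have hle2 := ind_le r B1 w0
  have hcases : nb (Gq q) r A0 w0 = 0 ∨ nb (Gq q) r A0 w0 = 1 ∨ nb (Gq q) r A0 w0 = 2 := by omega
  rcases hcases with hc | hc | hc
  · -- `α = 0`
    exfalso
    rw [hc] at e0
    have hα : α = 0 := by push_cast at e0; linarith
    apply huv
    apply all_of_adj hq r
    intro u v hadj
    by_contra hne
    have e1 := (H u v).1 hne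
    rw [hα, zero_mul] at e1
    have := nb_pos_of_adj hadj (r.refl v)
    have : nb (Gq q) r u v = 0 := by exact_mod_cast e1
    omega
  · -- `α = 1 / 2`
    right
    rw [hc] at e0
    have hα : α = 1 / 2 := by push_cast at e0; linarith
    set k : ℕ := Nat.card (Quotient r) with hk
    have hk2 : 2 ≤ k := by
      have : Nontrivial (Quotient r) :=
        ⟨Quotient.mk r u0, Quotient.mk r v0, fun h => huv (Quotient.exact h)⟩
      exact Finite.one_lt_card
    have eA := (H A0 A0).2 (r.refl A0)
    rw [hdA, hα] at eA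
    have hk3 : k ≤ 3 := by
      have h2 : (0 : ℝ) ≤ nb (Gq q) r A0 A0 := by positivity
      have : (k : ℝ) ≤ 3 := by push_cast at eA; linarith
      exact_mod_cast this
    have hk' : k = 2 ∨ k = 3 := by omega
    rcases hk' with hk' | hk'
    · intro v w
      have : (2 : ℝ) * nb (Gq q) r v w = dg (Gq q) v := by
        by_cases hvw : r v w
        · have := (H v w).2 hvw
          rw [this, hk', hα]; push_cast; ring
        · have := (H v w).1 hvw
          rw [this, hα]; ring
      exact_mod_cast this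
    · exfalso
      rw [hk'] at eA
      have hAA : nb (Gq q) r A0 A0 = 0 := by
        have : (nb (Gq q) r A0 A0 : ℝ) = 0 := by rw [eA]; push_cast; ring
        exact_mod_cast this
      have hnA := nb_A r x0 A0
      rw [← hA0, ← hB0, ← hB1, hAA] at hnA
      have hB0A : ¬ r B0 A0 := ind_eq_zero.1 (by omega)
      have eB := (H A0 B0).1 (fun h => hB0A (r.symm h))
      rw [hdA, hα] at eB
      have hAB : nb (Gq q) r A0 B0 = 1 := by
        have : (nb (Gq q) r A0 B0 : ℝ) = 1 := by rw [eB]; push_cast; ring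
        exact_mod_cast this
      have hnB := nb_A r x0 B0
      rw [← hA0, ← hB0, ← hB1, hAB] at hnB
      have h00 : ind r B0 B0 = 1 := ind_eq_one.2 (r.refl B0)
      have hB10 : ¬ r B1 B0 := ind_eq_zero.1 (by omega)
      have e1 := (H B0 B0).2 (r.refl B0)
      have e2 := (H B1 B0).1 hB10
      rw [hB0, dg_inr, nb_B, ← hB0, hk', hα] at e1
      rw [hB1, dg_inr, nb_B, hα] at e2
      have hq' : (0 : ℝ) < q := by exact_mod_cast hq
      rw [e1] at e2
      push_cast at e2
      nlinarith
  · -- `α = 1`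
    left
    rw [hc] at e0
    have hα : α = 1 := by push_cast at e0; linarith
    have hall : ∀ v w u, ¬ r v w → (Gq q).Adj v u → r u w := by
      intro v w u hvw hvu
      have e1 := (H v w).1 hvw
      rw [hα, one_mul] at e1
      exact related_of_nb_eq_dg (by exact_mod_cast e1) hvu
    have hprop : ∀ v u, (Gq q).Adj v u → ¬ r v u := by
      intro v u hvu hr
      obtain ⟨w, hw⟩ := hex v
      exact hw (r.trans hr (hall v w u hw hvu))
    have hcom : ∀ v u u', (Gq q).Adj v u → (Gq q).Adj v u' → r u u' := fun v u u' h h' =>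
      hall v u' u (hprop v u' h') h
    -- all `inr` are related
    have hR : ∀ p p' : Fin 2 × Fin 2, r (Sum.inr p) (Sum.inr p') := by
      rintro ⟨s, y⟩ ⟨s', y'⟩
      exact hcom (Sum.inl (1, x0)) _ _ (by show adj 1 s; revert s; decide)
        (by show adj 1 s'; revert s'; decide)
    have hL1 : ∀ (t : Fin 3) (x x' : Fin q), r (Sum.inl (t, x)) (Sum.inl (1, x')) := by
      intro t x x'
      have : ∃ s : Fin 2, adj t s ∧ adj 1 s := by revert t; decide
      obtain ⟨s, hs, hs'⟩ := this
      exact hcom (Sum.inr (s, 0)) _ _ hs hs'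
    have hL : ∀ p p' : Fin 3 × Fin q, r (Sum.inl p) (Sum.inl p') := by
      rintro ⟨t, x⟩ ⟨t', x'⟩
      exact r.trans (hL1 t x x0) (r.symm (hL1 t' x' x0))
    have hLR : ∀ (p : Fin 3 × Fin q) (p' : Fin 2 × Fin 2), ¬ r (Sum.inl p) (Sum.inr p') := by
      intro p p' h
      refine hprop (Sum.inl (1, x0)) (Sum.inr (0, 0)) (by show adj 1 0; decide) ?_
      exact r.trans (hL _ _) (r.trans h (hR _ _))
    apply Setoid.ext
    rintro (p | p) (p' | p')
    · simp [bip_iff, hL]
    · simp [bip_iff, hLR]
    · simp only [bip_iff, Sum.isLeft_inr, Sum.isLeft_inl, Bool.false_eq_true, iff_false]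
      exact fun h => hLR _ _ (r.symm h)
    · simp [bip_iff, hR]

end Classify

section Half

variable {q : ℕ}

/-- Every vertex has half of its neighbours in each class. -/
def Half (r : Setoid (Vq q)) : Prop := ∀ v w, 2 * nb (Gq q) r v w = dg (Gq q) v

lemma Half.B {r : Setoid (Vq q)} (h : Half r) (hq : 0 < q) (w : Vq q) :
    (r (Sum.inr (0, 0)) w ∧ ¬ r (Sum.inr (0, 1)) w) ∨
    (¬ r (Sum.inr (0, 0)) w ∧ r (Sum.inr (0, 1)) w) := by
  have h1 := h (Sum.inl (0, ⟨0, hq⟩)) w
  rw [nb_A, dg_inl, if_neg (by decide)] at h1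
  have h2 := ind_le r (Sum.inr (0, 0)) w
  have h3 := ind_le r (Sum.inr (0, 1)) w
  have : (ind r (Sum.inr (0, 0)) w = 1 ∧ ind r (Sum.inr (0, 1)) w = 0) ∨
    (ind r (Sum.inr (0, 0)) w = 0 ∧ ind r (Sum.inr (0, 1)) w = 1) := by omega
  rw [ind_eq_one, ind_eq_zero, ind_eq_one, ind_eq_zero] at this
  exact this

lemma Half.D {r : Setoid (Vq q)} (h : Half r) (hq : 0 < q) (w : Vq q) :
    (r (Sum.inr (1, 0)) w ∧ ¬ r (Sum.inr (1, 1)) w) ∨
    (¬ r (Sum.inr (1, 0)) w ∧ r (Sum.inr (1, 1)) w) := by
  have h1 := h (Sum.inl (2, ⟨0, hq⟩)) w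
  rw [nb_E, dg_inl, if_neg (by decide)] at h1
  have h2 := ind_le r (Sum.inr (1, 0)) w
  have h3 := ind_le r (Sum.inr (1, 1)) w
  have : (ind r (Sum.inr (1, 0)) w = 1 ∧ ind r (Sum.inr (1, 1)) w = 0) ∨
    (ind r (Sum.inr (1, 0)) w = 0 ∧ ind r (Sum.inr (1, 1)) w = 1) := by omega
  rw [ind_eq_one, ind_eq_zero, ind_eq_one, ind_eq_zero] at this
  exact this

lemma Half.cnt01 {r : Setoid (Vq q)} (h : Half r) (w : Vq q) : cnt r 0 w + cnt r 1 w = q := by
  have := h (Sum.inr (0, 0)) w
  rw [nb_B, dg_inr] at this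
  omega

lemma Half.cnt12 {r : Setoid (Vq q)} (h : Half r) (w : Vq q) : cnt r 1 w + cnt r 2 w = q := by
  have := h (Sum.inr (1, 0)) w
  rw [nb_D, dg_inr] at this
  omega

/-- In a `Half` coloring there are only two classes. -/
lemma Half.two {r : Setoid (Vq q)} (h : Half r) (hq : 0 < q) {u v w : Vq q} (h1 : ¬ r u w)
    (h2 : ¬ r v w) : r u v := by
  rcases h.B hq u with ⟨a, a'⟩ | ⟨a, a'⟩ <;> rcases h.B hq v with ⟨b, b'⟩ | ⟨b, b'⟩ <;>
    rcases h.B hq w with ⟨c, c'⟩ | ⟨c, c'⟩
  · exact absurd (r.trans (r.symm a) c) h1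
  · exact r.trans (r.symm a) b
  · exact absurd (r.trans (r.symm a) c) h1
  · exact absurd (r.trans (r.symm b') c') h2
  · exact absurd (r.trans (r.symm b) c) h2
  · exact absurd (r.trans (r.symm a') c') h1
  · exact r.trans (r.symm a') b'
  · exact absurd (r.trans (r.symm a') c') h1

lemma isFAT_of_half {r : Setoid (Vq q)} (h : Half r) (hk : Nat.card (Quotient r) = 2) :
    IsFAT (Gq q) r := by
  refine ⟨1 / 2, by norm_num, by norm_num, fun v w => ?_⟩
  have h1 : (2 : ℝ) * nb (Gq q) r v w = dg (Gq q) v := by exact_mod_cast h v w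
  rw [hk]
  constructor
  · intro _; linarith
  · intro _; push_cast; linarith

lemma isFAT_bip (hq : 0 < q) : IsFAT (Gq q) (bip q) := by
  classical
  have hk : Nat.card (Quotient (bip q)) = 2 := by
    have hsurj : Function.Surjective fun v : Vq q => v.isLeft := by
      intro b
      cases b
      · exact ⟨Sum.inr (0, 0), rfl⟩
      · exact ⟨Sum.inl (0, ⟨0, hq⟩), rfl⟩
    rw [bip, Nat.card_congr (Setoid.quotientKerEquivOfSurjective _ hsurj)]
    simp
  have hadj : ∀ u v : Vq q, (Gq q).Adj v u → u.isLeft = !v.isLeft := by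
    rintro (p | p) (p' | p') h
    · exact absurd h (adj_inl_inl _ _)
    · rfl
    · rfl
    · exact absurd h (adj_inr_inr _ _)
  refine ⟨1, by norm_num, le_rfl, fun v w => ?_⟩
  rw [hk]
  constructor
  · intro hvw
    rw [bip_iff] at hvw
    rw [one_mul]
    unfold nb dg
    congr 2
    ext u
    simp only [Finset.mem_filter, Finset.mem_univ, true_and, and_iff_left_iff_imp, bip_iff]
    intro h
    rw [hadj u v h]
    cases h1 : v.isLeft <;> cases h2 : w.isLeft <;> simp_all
  · intro hvw
    rw [bip_iff] at hvw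
    have : nb (Gq q) (bip q) v w = 0 := by
      unfold nb
      rw [Finset.card_eq_zero, Finset.filter_eq_empty_iff]
      rintro u - ⟨h1, h2⟩
      rw [bip_iff, hadj u v h1, hvw] at h2
      cases h3 : w.isLeft <;> simp_all
    rw [this]
    norm_num

lemma half_not_all {r : Setoid (Vq q)} (h : Half r) (hq : 0 < q) : ¬ ∀ u v, r u v := by
  intro hall
  rcases h.B hq (Sum.inr (0, 0)) with ⟨-, h1⟩ | ⟨h1, -⟩ <;> exact h1 (hall _ _)

lemma bip_not_all (hq : 0 < q) : ¬ ∀ u v, bip q u v := by
  intro hall
  have := hall (Sum.inl (0, ⟨0, hq⟩)) (Sum.inr (0, 0))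
  rw [bip_iff] at this
  simp at this

lemma half_ne_bip_le {r : Setoid (Vq q)} (h : Half r) (hq : 0 < q) : ¬ r ≤ bip q := by
  intro hle
  rcases h.B hq (Sum.inl (0, ⟨0, hq⟩)) with ⟨h1, -⟩ | ⟨-, h1⟩ <;>
    · have := hle h1
      rw [bip_iff] at this
      simp at this

lemma bip_le_half {r : Setoid (Vq q)} (h : Half r) (hq : 0 < q) : ¬ bip q ≤ r := by
  intro hle
  rcases h.B hq (Sum.inr (0, 0)) with ⟨-, h1⟩ | ⟨h1, -⟩
  · apply h1; apply hle; rw [bip_iff]; rfl
  · exact h1 (r.refl _)

lemma half_le_half {r r' : Setoid (Vq q)} (h : Half r) (h' : Half r') (hq : 0 < q) (hle : r' ≤ r) :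
    r' = r := by
  apply le_antisymm hle
  intro u v huv
  by_contra hne
  -- `r'` separates `u` and `v`; one of them is related to each `B`
  have key : ∀ w, r' w u ∨ r' w v := by
    intro w
    by_contra hcon
    push Not at hcon
    exact hne (h'.two hq (fun h => hcon.1 (r'.symm h)) (fun h => hcon.2 (r'.symm h)))
  apply half_not_all h hq
  intro x y
  have hx : ∀ w, r w u := by
    intro w
    rcases key w with h1 | h1
    · exact hle h1
    · exact r.trans (hle h1) (r.symm huv)
  exact r.trans (hx x) (r.symm (hx y))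

lemma irreducible_half {r : Setoid (Vq q)} (h : Half r) (hq : 0 < q) (hF : IsFAT (Gq q) r) :
    IsIrreducible (Gq q) r := by
  refine ⟨hF, fun r' hr' hle => ?_⟩
  rcases classify hq r' hr' with h1 | h1 | h1
  · exact absurd (fun u v => hle (h1 u v)) (half_not_all h hq)
  · rw [h1] at hle
    exact absurd hle (bip_le_half h hq)
  · exact half_le_half h h1 hq hle

lemma irreducible_bip (hq : 0 < q) : IsIrreducible (Gq q) (bip q) := by
  refine ⟨isFAT_bip hq, fun r' hr' hle => ?_⟩
  rcases classify hq r' hr' with h1 | h1 | h1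
  · exact absurd (fun u v => hle (h1 u v)) (bip_not_all hq)
  · exact h1
  · exact absurd hle (half_ne_bip_le h1 hq)

/-- An irreducible coloring is the bipartition or a `Half` coloring. -/
lemma irreducible_cases (hq : 0 < q) {r : Setoid (Vq q)} (h : IsIrreducible (Gq q) r) :
    r = bip q ∨ Half r := by
  rcases classify hq r h.1 with h1 | h1 | h1
  · exfalso
    have := h.2 (bip q) (isFAT_bip hq) (fun u v _ => h1 u v)
    apply bip_not_all hq
    rw [this]
    exact h1
  · exact Or.inl h1
  · exact Or.inr h1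

end Half

section Standard

variable {q : ℕ}

/-- The standard coloring with parameter `a`. -/
def col (q a : ℕ) : Vq q → Bool
  | Sum.inl (t, x) => decide (x.val < if t = 1 then q - a else a)
  | Sum.inr (_, y) => decide (y = 0)

/-- The standard partition with parameter `a`. -/
def F (q a : ℕ) : Setoid (Vq q) := Setoid.ker (col q a)

lemma F_iff (a : ℕ) (u v : Vq q) : F q a u v ↔ col q a u = col q a v := Iff.rfl

lemma card_lt {m : ℕ} (hm : m ≤ q) : (univ.filter fun x : Fin q => x.val < m).card = m := by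
  have : (univ.filter fun x : Fin q => x.val < m) = (univ : Finset (Fin m)).map
      (Fin.castLEEmb hm) := by
    ext x
    simp only [Finset.mem_filter, Finset.mem_univ, true_and, Finset.mem_map, Fin.castLEEmb_apply]
    constructor
    · intro h
      exact ⟨⟨x.val, h⟩, by ext; simp⟩
    · rintro ⟨y, rfl⟩
      exact y.2
  rw [this, Finset.card_map, Finset.card_univ, Fintype.card_fin]

lemma card_col_true {a : ℕ} (ha : a ≤ q) (t : Fin 3) :
    (univ.filter fun x : Fin q => col q a (Sum.inl (t, x)) = true).card =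
      if t = 1 then q - a else a := by
  have : (univ.filter fun x : Fin q => col q a (Sum.inl (t, x)) = true) =
      univ.filter fun x : Fin q => x.val < if t = 1 then q - a else a := by
    ext x; simp [col]
  rw [this, card_lt]
  split_ifs <;> omega

lemma card_col (c : Fin q → Bool) : (univ.filter fun x : Fin q => c x = true).card +
    (univ.filter fun x : Fin q => c x = false).card = q := by
  have := Finset.card_filter_add_card_filter_not (s := (univ : Finset (Fin q))) (fun x => c x = true)
  simpa using this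

open Classical in
lemma cnt_F {a : ℕ} (ha : a ≤ q) (t : Fin 3) (w : Vq q) :
    cnt (F q a) t w = if col q a w = true then (if t = 1 then q - a else a)
      else q - (if t = 1 then q - a else a) := by
  unfold cnt
  have h1 := card_col_true ha t
  have h2 := card_col (fun x => col q a (Sum.inl (t, x)))
  cases h : col q a w
  · have : (univ.filter fun x : Fin q => F q a (Sum.inl (t, x)) w) =
        univ.filter fun x : Fin q => col q a (Sum.inl (t, x)) = false := by
      ext x; simp [F_iff, h]
    rw [this, if_neg (by simp)]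
    omega
  · have : (univ.filter fun x : Fin q => F q a (Sum.inl (t, x)) w) =
        univ.filter fun x : Fin q => col q a (Sum.inl (t, x)) = true := by
      ext x; simp [F_iff, h]
    rw [this, if_pos rfl, h1]

lemma half_F {a : ℕ} (ha : a ≤ q) : Half (F q a) := by
  classical
  have hone : ∀ (s : Fin 2) (w : Vq q), ind (F q a) (Sum.inr (s, 0)) w +
      ind (F q a) (Sum.inr (s, 1)) w = 1 := by
    intro s w
    unfold ind
    simp only [F_iff]
    cases h : col q a w <;> simp [col]
  rintro (⟨t, x⟩ | ⟨s, y⟩) w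
  · rw [dg_inl, nb_inl, Fin.sum_univ_two]
    have h0 := hone 0 w
    have h1 := hone 1 w
    unfold ind at h0 h1
    rw [h0, h1]
    fin_cases t <;> simp [adj]
  · rw [dg_inr]
    have hs : s = 0 ∨ s = 1 := by revert s; decide
    rcases hs with rfl | rfl
    · rw [nb_B, cnt_F ha, cnt_F ha, if_neg (show ¬ ((0 : Fin 3) = 1) by decide),
        if_pos (show ((1 : Fin 3) = 1) from rfl)]
      split_ifs <;> omega
    · rw [nb_D, cnt_F ha, cnt_F ha, if_neg (show ¬ ((2 : Fin 3) = 1) by decide),
        if_pos (show ((1 : Fin 3) = 1) from rfl)]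
      split_ifs <;> omega

lemma card_quotient_F (a : ℕ) : Nat.card (Quotient (F q a)) = 2 := by
  have hsurj : Function.Surjective (col q a) := by
    intro b
    cases b
    · exact ⟨Sum.inr (0, 1), rfl⟩
    · exact ⟨Sum.inr (0, 0), rfl⟩
  rw [F, Nat.card_congr (Setoid.quotientKerEquivOfSurjective _ hsurj)]
  simp

lemma irreducible_F {a : ℕ} (ha : a ≤ q) (hq : 0 < q) : IsIrreducible (Gq q) (F q a) :=
  irreducible_half (half_F ha) hq (isFAT_of_half (half_F ha) (card_quotient_F a))

/-- Two Boolean functions with equally many `true` values differ by a permutation. -/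
lemma permMatch {α : Type} [Fintype α] [DecidableEq α] (f g : α → Bool)
    (h : (univ.filter fun x => f x = true).card = (univ.filter fun x => g x = true).card) :
    ∃ σ : Equiv.Perm α, ∀ x, g (σ x) = f x := by
  have hf := Finset.card_filter_add_card_filter_not (s := (univ : Finset α)) (fun x => f x = true)
  have hg := Finset.card_filter_add_card_filter_not (s := (univ : Finset α)) (fun x => g x = true)
  have h' : (univ.filter fun x => f x = false).card = (univ.filter fun x => g x = false).card := by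
    simp only [Bool.not_eq_true] at hf hg
    omega
  have hc : ∀ c : Bool, Fintype.card {a // f a = c} = Fintype.card {b // g b = c} := by
    intro c
    rw [Fintype.card_subtype, Fintype.card_subtype]
    cases c
    · exact h'
    · exact h
  let e : ∀ c : Bool, {a // f a = c} ≃ {b // g b = c} := fun c => Fintype.equivOfCardEq (hc c)
  exact ⟨Equiv.ofFiberEquiv e, fun x => Equiv.ofFiberEquiv_map e x⟩

/-- An automorphism from permutations of the classes. -/
def mkIso (σ : Fin 3 → Equiv.Perm (Fin q)) (τ : Fin 2 → Equiv.Perm (Fin 2)) : Gq q ≃g Gq q where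
  toEquiv := Equiv.sumCongr (Equiv.prodShear (Equiv.refl _) σ) (Equiv.prodShear (Equiv.refl _) τ)
  map_rel_iff' := by
    rintro (⟨t, x⟩ | ⟨s, y⟩) (⟨t', x'⟩ | ⟨s', y'⟩) <;> exact Iff.rfl

/-- Every `Half` coloring is equivalent to a standard one. -/
lemma half_equiv {r : Setoid (Vq q)} (h : Half r) (hq : 0 < q) (hodd : Odd q) :
    ∃ a, 2 * a < q ∧ Equivalent (Gq q) r (F q a) := by
  classical
  -- choose the base point
  have hbase : ∃ w : Vq q, 2 * cnt r 0 w < q := by
    by_contra hcon
    push Not at hcon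
    have h0 := hcon (Sum.inr (0, 0))
    have h1 := hcon (Sum.inr (0, 1))
    have hsum : cnt r 0 (Sum.inr (0, 0)) + cnt r 0 (Sum.inr (0, 1)) = q := by
      have := card_col (fun x => decide (r (Sum.inl (0, x)) (Sum.inr (0, 0))))
      unfold cnt
      have e1 : (univ.filter fun x : Fin q => decide (r (Sum.inl (0, x)) (Sum.inr (0, 0))) = true)
          = univ.filter fun x : Fin q => r (Sum.inl (0, x)) (Sum.inr (0, 0)) := by
        ext x; simp
      have e2 : (univ.filter fun x : Fin q => decide (r (Sum.inl (0, x)) (Sum.inr (0, 0))) = false)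
          = univ.filter fun x : Fin q => r (Sum.inl (0, x)) (Sum.inr (0, 1)) := by
        ext x
        simp only [Finset.mem_filter, Finset.mem_univ, true_and, decide_eq_false_iff_not]
        rcases h.B hq (Sum.inl (0, x)) with ⟨a, b⟩ | ⟨a, b⟩
        · exact iff_of_false (fun hn => hn (r.symm a)) (fun hn => b (r.symm hn))
        · exact iff_of_true (fun hn => a (r.symm hn)) (r.symm b)
      rw [e1, e2] at this
      exact this
    obtain ⟨k, hk⟩ := hodd
    omega
  obtain ⟨w, hw⟩ := hbase
  refine ⟨cnt r 0 w, hw, ?_⟩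
  set a := cnt r 0 w with ha
  have haq : a ≤ q := by omega
  let c : Vq q → Bool := fun v => decide (r v w)
  have hc : ∀ u v, r u v ↔ c u = c v := by
    intro u v
    constructor
    · intro huv
      simp only [c, decide_eq_decide]
      exact ⟨fun hu => r.trans (r.symm huv) hu, fun hv => r.trans huv hv⟩
    · intro huv
      simp only [c, decide_eq_decide] at huv
      by_cases hu : r u w
      · exact r.trans hu (r.symm (huv.1 hu))
      · exact h.two hq hu (fun hv => hu (huv.2 hv))
  have hct : ∀ t : Fin 3, (univ.filter fun x : Fin q => c (Sum.inl (t, x)) = true).card =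
      cnt r t w := by
    intro t
    unfold cnt
    congr 1
    ext x; simp [c]
  have hm : ∀ t : Fin 3, cnt r t w = if t = 1 then q - a else a := by
    have h1 := h.cnt01 w
    have h2 := h.cnt12 w
    intro t
    have ht : t = 0 ∨ t = 1 ∨ t = 2 := by revert t; decide
    rcases ht with rfl | rfl | rfl
    · rw [if_neg (by decide)]
    · rw [if_pos rfl]; omega
    · rw [if_neg (by decide)]; omega
  have hσ : ∀ t : Fin 3, ∃ σ : Equiv.Perm (Fin q), ∀ x,
      col q a (Sum.inl (t, σ x)) = c (Sum.inl (t, x)) := by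
    intro t
    apply permMatch (fun x => c (Sum.inl (t, x))) (fun x => col q a (Sum.inl (t, x)))
    rw [hct, hm, card_col_true haq]
  have hτ : ∀ s : Fin 2, ∃ τ : Equiv.Perm (Fin 2), ∀ y,
      col q a (Sum.inr (s, τ y)) = c (Sum.inr (s, y)) := by
    intro s
    apply permMatch (fun y => c (Sum.inr (s, y))) (fun y => col q a (Sum.inr (s, y)))
    have e1 : (univ.filter fun y : Fin 2 => col q a (Sum.inr (s, y)) = true).card = 1 := by
      simp only [col, decide_eq_true_eq]
      decide
    have e2 : (univ.filter fun y : Fin 2 => c (Sum.inr (s, y)) = true).card = 1 := by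
      rw [Finset.card_filter, Fin.sum_univ_two]
      have hs : s = 0 ∨ s = 1 := by clear e1; revert s; decide
      rcases hs with rfl | rfl
      · rcases h.B hq w with ⟨h1, h2⟩ | ⟨h1, h2⟩ <;> simp [c, h1, h2]
      · rcases h.D hq w with ⟨h1, h2⟩ | ⟨h1, h2⟩ <;> simp [c, h1, h2]
    rw [e1, e2]
  choose σ hσ using hσ
  choose τ hτ using hτ
  refine ⟨mkIso σ τ, fun u v => ?_⟩
  have hφ : ∀ u, col q a (mkIso σ τ u) = c u := by
    rintro (⟨t, x⟩ | ⟨s, y⟩)
    · exact hσ t x
    · exact hτ s y
  rw [F_iff, hφ, hφ, hc]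

lemma not_equiv_bip {a : ℕ} (hq : 0 < q) (ha : a ≤ q) :
    ¬ Equivalent (Gq q) (bip q) (F q a) := by
  rintro ⟨φ, hφ⟩
  let u : Vq q := Sum.inl (0, ⟨0, hq⟩)
  have hex : ∃ v, (Gq q).Adj u v ∧ F q a u v := by
    rcases (half_F ha).B hq u with ⟨h1, -⟩ | ⟨-, h1⟩
    · exact ⟨Sum.inr (0, 0), (by decide : adj 0 0), (F q a).symm h1⟩
    · exact ⟨Sum.inr (0, 1), (by decide : adj 0 0), (F q a).symm h1⟩
  obtain ⟨v, hv1, hv2⟩ := hex
  have h1 := (hφ (φ.symm u) (φ.symm v)).2 (by simpa using hv2)
  have h2 : (Gq q).Adj (φ.symm u) (φ.symm v) := φ.symm.map_rel_iff.2 hv1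
  rw [bip_iff] at h1
  rcases hu : φ.symm u with p | p <;> rcases hv : φ.symm v with p' | p'
  · rw [hu, hv] at h2; exact h2
  · rw [hu, hv] at h1; simp at h1
  · rw [hu, hv] at h1; simp at h1
  · rw [hu, hv] at h2; exact h2

open Classical in
/-- The size of the class of `v`. -/
noncomputable def csize (r : Setoid (Vq q)) (v : Vq q) : ℕ := (univ.filter fun u => r u v).card

open Classical in
lemma csize_F {a : ℕ} (ha : a ≤ q) (v : Vq q) :
    csize (F q a) v = if col q a v = true then q + a + 2 else 2 * q - a + 2 := by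
  unfold csize
  rw [Finset.card_filter, Fintype.sum_sum_type, Fintype.sum_prod_type (f := fun p : Fin 3 × Fin q =>
    if F q a (Sum.inl p) v then 1 else 0), Fintype.sum_prod_type (f := fun p : Fin 2 × Fin 2 =>
    if F q a (Sum.inr p) v then 1 else 0)]
  have e1 : ∀ t : Fin 3, (∑ x : Fin q, if F q a (Sum.inl (t, x)) v then 1 else 0) =
      cnt (F q a) t v := by
    intro t
    unfold cnt
    rw [Finset.card_filter]
  have e2 : ∀ s : Fin 2, (∑ y : Fin 2, if F q a (Sum.inr (s, y)) v then 1 else 0) = 1 := by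
    intro s
    rw [Fin.sum_univ_two]
    simp only [F_iff]
    cases h : col q a v <;> simp [col]
  simp only [e1, e2, Fin.sum_univ_three, Fin.sum_univ_two, cnt_F ha]
  cases h : col q a v
  · simp; omega
  · simp; omega

lemma csize_equiv {r r' : Setoid (Vq q)} (φ : Gq q ≃g Gq q)
    (hφ : ∀ u v, r u v ↔ r' (φ u) (φ v)) (v : Vq q) : csize r v = csize r' (φ v) := by
  classical
  unfold csize
  refine Finset.card_bij (fun u _ => φ u) ?_ ?_ ?_
  · intro u hu
    simp only [Finset.mem_filter, Finset.mem_univ, true_and] at hu ⊢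
    exact (hφ u v).1 hu
  · intro u _ u' _ h
    exact φ.injective h
  · intro u hu
    simp only [Finset.mem_filter, Finset.mem_univ, true_and] at hu
    refine ⟨φ.symm u, ?_, by simp⟩
    simp only [Finset.mem_filter, Finset.mem_univ, true_and]
    rw [hφ]
    simpa using hu

lemma F_inj {a a' : ℕ} (ha : 2 * a < q) (ha' : 2 * a' < q)
    (h : Equivalent (Gq q) (F q a) (F q a')) : a = a' := by
  obtain ⟨φ, hφ⟩ := h
  have h1 := csize_equiv φ hφ (Sum.inr (0, 0))
  rw [csize_F (by omega), csize_F (by omega)] at h1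
  have h2 : col q a (Sum.inr (0, 0)) = true := rfl
  rw [if_pos h2] at h1
  split_ifs at h1 <;> omega

lemma Gq_connected (hq : 0 < q) : (Gq q).Connected := by
  have : Nonempty (Vq q) := ⟨Sum.inr (0, 0)⟩
  refine ⟨fun u v => ?_⟩
  exact all_of_adj hq (Gq q).reachableSetoid (fun u v h => h.reachable) u v

end Standard

/-- The graph `Gq (2 n + 1)` has exactly `n + 2` irreducible FAT colorings. -/
theorem num_Gq (n : ℕ) : numIrreducible (Gq (2 * n + 1)) = n + 2 := by
  set q := 2 * n + 1 with hq
  have hq0 : 0 < q := by omega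
  let f : Option (Fin (n + 1)) → Quotient (irrSetoid (Gq q)) := fun i =>
    match i with
    | none => Quotient.mk _ ⟨bip q, irreducible_bip hq0⟩
    | some a => Quotient.mk _ ⟨F q a.val, irreducible_F (by omega) hq0⟩
  have hf : Function.Bijective f := by
    constructor
    · rintro (_ | a) (_ | a') h
      · rfl
      · exact absurd (Quotient.exact h) (not_equiv_bip hq0 (by omega))
      · exact absurd (Equivalent.symm (Quotient.exact h)) (not_equiv_bip hq0 (by omega))
      · have := F_inj (by omega) (by omega) (Quotient.exact h)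
        rw [Fin.ext this]
    · intro x
      obtain ⟨⟨r, hr⟩, rfl⟩ := Quotient.exists_rep x
      rcases irreducible_cases hq0 hr with h | h
      · subst h
        exact ⟨none, rfl⟩
      · obtain ⟨a, ha, hE⟩ := half_equiv h hq0 ⟨n, hq⟩
        refine ⟨some ⟨a, by omega⟩, ?_⟩
        exact Quotient.sound (Equivalent.symm hE)
  have := Nat.card_congr (Equiv.ofBijective f hf)
  unfold numIrreducible
  rw [← this]
  simp

/-- The one-vertex graph has exactly one irreducible FAT coloring. -/
theorem num_point : numIrreducible (⊥ : SimpleGraph Unit) = 1 := by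
  unfold numIrreducible
  have hr : IsIrreducible (⊥ : SimpleGraph Unit) (⊤ : Setoid Unit) := by
    constructor
    · refine ⟨0, le_rfl, zero_le_one, fun v w => ?_⟩
      have h1 : nb (⊥ : SimpleGraph Unit) ⊤ v w = 0 := by simp [nb]
      have h2 : dg (⊥ : SimpleGraph Unit) v = 0 := by simp [dg]
      rw [h1, h2]
      simp
    · intro r' _ _
      ext u v
      exact iff_of_true (r'.refl _) trivial
  have : Unique (Quotient (irrSetoid (⊥ : SimpleGraph Unit))) :=
    { default := Quotient.mk _ ⟨⊤, hr⟩
      uniq := by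
        intro x
        obtain ⟨⟨r, hr⟩, rfl⟩ := Quotient.exists_rep x
        have : r = ⊤ := by
          ext u v
          exact iff_of_true (r.refl _) trivial
        subst this
        rfl }
  exact Nat.card_unique

/-- **Main theorem.** For every `b ≥ 1` there is a finite connected simple graph with exactly `b`
irreducible FAT colorings. -/
theorem result (b : ℕ) (hb : 1 ≤ b) :
    ∃ (V : Type) (_ : Fintype V) (G : SimpleGraph V), G.Connected ∧ numIrreducible G = b := by
  rcases Nat.lt_or_ge b 2 with h | h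
  · have : b = 1 := by omega
    subst this
    refine ⟨Unit, inferInstance, ⊥, ⟨fun u v => ?_⟩, num_point⟩
    exact SimpleGraph.Reachable.refl _
  · refine ⟨Vq (2 * (b - 2) + 1), inferInstance, Gq (2 * (b - 2) + 1), Gq_connected (by omega), ?_⟩
    rw [num_Gq]
    omega

end Pool.Agent.Results.MP_48b99b_co.EveryCount
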